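import Pool.Agent.Helper68.C2.Stm

/-!
# Statement: the `3`-part of the formula, with trivial `3`-part of the Tate-Shafarevich group
-/

set_option autoImplicit false

open scoped Classical

namespace Pool.Agent.Helper68.C3

open NumberField
open Pool.Agent.Y696.CTK
open Pool.Agent.Y703.CT
open Pool.Agent.Y696 (NonsingRed Cur)
open Pool.Agent.Y715.T.Gi Pool.Agent.Y715.T.Nr Pool.Agent.Y715.T.Df Pool.Agent.Y715.T.Ell

section
variable {K : Type} [Field K] [NumberField K]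

/-- the squarefree elements congruent to a primitive cube root of unity modulo three -/
def ClsQ (D : 𝓞 K) : Prop :=
  (∃ ω : 𝓞 K, ω ^ 2 + ω + 1 = 0 ∧ (3 : 𝓞 K) ∣ D - ω) ∧ Squarefree D

/-- `E_D : y² + D y = x³` has finitely many points over `K`, trivial `3`-part of the
Tate-Shafarevich group, `L(E_D / K, 1) ≠ 0`, and the `3`-part of the leading-term formula holds -/
def Part3 (D : 𝓞 K) : Prop :=
  Tri D ∧
  ∃ (Lf : ℂ → ℂ) (c : IsDedekindDomain.HeightOneSpectrum (𝓞 K) → ℕ),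
    Differentiable ℂ Lf ∧
    (∀ s : ℂ, 3 / 2 < s.re →
      LSeriesSummable ((fun n : ℤ => (n : ℂ)) ∘ (ED (D : K)).LFunction) s ∧
        Lf s = (ED (D : K)).LSeries s) ∧
    Lf 1 ≠ 0 ∧
    IsTam (ED (D : K)) c ∧
    ∀ σ : K →+* ℂ, (∃ Λ : PeriodPair, Λ.g₂ = 0 ∧ Λ.g₃ = -(σ D) ^ 2) ∧
      ∀ Λ : PeriodPair, Λ.g₂ = 0 → Λ.g₃ = -(σ D) ^ 2 → ∃ ρ : ℂ,
        Lf 1 = ρ * (((2 * |((starRingEnd ℂ) Λ.ω₁ * Λ.ω₂).im| : ℝ) : ℂ) * ((∏ᶠ w, c w : ℕ) : ℂ) /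
          (((Real.sqrt |(discr K : ℝ)| : ℝ) : ℂ) * (tors D : ℂ) ^ 2)) ∧
        ∀ (Γ : Type) [LinearOrderedCommGroupWithZero Γ] (v : Valuation ℂ Γ), v 3 < 1 → v ρ = 1

end

end Pool.Agent.Helper68.C3
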