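import Pool.Graph.R_seed8.Y703.XL.Stm
import Pool.Graph.R_seed8.Y692.QS.Ei

/-!
# The law of the kernels of the perturbed Laplacians of the cubic residue symbols

`β` is a nontrivial character (with values in the field with three elements) of the primary elements
modulo `9`. For a set `S` of primary primes we consider the system
`∑ ρ ∈ S, cs π ρ * (v ρ - v π) = β π * v π`. The number of its solutions is `3 ^ r` for exactly the
proportion `cr r` of the sets. Definitions; compare `Pool.Agent.Y703.XK` and `Pool.Agent.Y703.XL`.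
-/

set_option autoImplicit false
set_option linter.unusedVariables false

open scoped Classical

namespace Pool.Agent.Helper68.C3

open Finset
open Pool.Agent.Y692.QS (Ei w nr toC)
open Pool.Agent.Y715.T.Rec (cs)
open Pool.Agent.Y715.T.RecG (Pq)
open Pool.Agent.Y699.E (ez nrm QB prm)
open Pool.Agent.Y703.CX (jj XX eL zz kk)
open Pool.Agent.Y703.XK (HB prs ext c9 sm la bl S_BIL S_EQ)
open Pool.Agent.Y703.XL (cr)

/-- a nontrivial character modulo nine of the primary elements -/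
structure Bt (β : Ei → ZMod 3) : Prop where
  mul : ∀ a b : Ei, prm a → prm b → β (a * b) = β a + β b
  per : ∀ a b : Ei, prm a → prm b → (9 : Ei) ∣ a - b → β a = β b
  nt : ∃ c : Ei, prm c ∧ β c ≠ 0

/-- the number of the solutions of the perturbed Laplacian system of a set -/
noncomputable def nB (β : Ei → ZMod 3) (S : Finset Ei) : ℕ :=
  Nat.card {v : S → ZMod 3 // ∀ π : S, ∑ ρ : S, cs π ρ * (v ρ - v π) = β π * v π}

/-- the sets whose solution space has dimension `r` -/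
def GB (β : Ei → ZMod 3) (r : ℕ) (S : Finset Ei) : Prop := nB β S = 3 ^ r

/-- the sets of primary primes -/
def Cl (S : Finset Ei) : Prop := ∀ π ∈ S, Pq π

/-- the sets of primary primes with norm at most `X` -/
noncomputable def SS (X : ℕ) : Finset (Finset Ei) :=
  (QB X).powerset.filter fun S => Cl S ∧ ∏ π ∈ S, nrm π ≤ X

/-- the labels of the large primes with respect to the small ones and `β` are not degenerate -/
def Nd (β : Ei → ZMod 3) (S₀ S₁ : Finset Ei) : Prop :=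
  ∀ (t : ZMod 3) (v : Ei → ZMod 3), (t ≠ 0 ∨ ∃ u ∈ S₀, v u ≠ 0) →
    ∃ π ∈ S₁, t * β π + ∑ u ∈ S₀, v u * cs u π ≠ 0

/-- the regular sets -/
noncomputable def RR (X z H k V : ℕ) : Finset (Finset Ei) :=
  (SS X).filter fun S => Set.InjOn (bl H) (la z S : Set Ei) ∧ S.card ≤ k ∧
    (∏ π ∈ sm z S, nrm π) * ∏ π ∈ la z S, XX H (bl H π) ≤ X ∧
    (sm z S).card + 1 + V < (la z S).card

/-- the count in a box for a property `P` with the constants `c`, `K` -/
def BoxG (β : Ei → ZMod 3) (P : Finset Ei → Prop) (c K : ℝ) : Prop :=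
  ∀ (ι : Type) [Fintype ι] [LinearOrder ι]
  (C : ι → Finset Ei) (X : ι → ℕ) (κ : ℝ) (S₀ : Finset Ei), 0 ≤ κ → (∀ i, (C i).card ≤ X i) →
  HB C X κ → (∀ u ∈ S₀, Pq u) → (∀ i, ∀ π ∈ C i, Pq π ∧ π ∉ S₀) →
  (∀ i l, i ≠ l → Disjoint (C i) (C l)) → S₀.card + 1 < Fintype.card ι →
  |(((Fintype.piFinset C).filter fun p => Nd β S₀ (univ.image p) ∧
        P (S₀ ∪ univ.image p)).card : ℝ) -
      c * (((Fintype.piFinset C).filter fun p => Nd β S₀ (univ.image p)).card : ℝ)| ≤
    K * (3 ^ (S₀.card + 1) / 3 ^ Fintype.card ι) *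
      (((Fintype.piFinset C).filter fun p => Nd β S₀ (univ.image p)).card : ℝ) +
    3 ^ ((S₀.card + 1) * Fintype.card ι + (prs ι).card) * (κ * ∏ j, (X j : ℝ))

/-- the law for the sets -/
def S_DQ (β : Ei → ZMod 3) : Prop := ∀ r : ℕ, Filter.Tendsto
  (fun X : ℕ => (((SS X).filter (GB β r)).card : ℝ) / ((SS X).card : ℝ)) Filter.atTop (nhds (cr r))

/-- sets with many primes, sets near the boundary, sets with two primes in a block -/
structure CntP (C : ℝ) : Prop where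
  one : 1 ≤ C
  all : ∀ X : ℕ, 1 ≤ X → ((SS X).card : ℝ) ≤ C * X
  many : ∀ X k : ℕ, 1 ≤ X → (((SS X).filter fun S => k < S.card).card : ℝ) * 2 ^ k ≤
    C * (X * (1 + Real.log X))
  cut : ∀ X z H k : ℕ, 1 ≤ X → 1 ≤ H → 1 ≤ k → (((SS X).filter fun S => S.card ≤ k ∧
    X < (∏ π ∈ sm z S, nrm π) * ∏ π ∈ la z S, XX H (bl H π)).card : ℝ) ≤
      C * (X * (1 + Real.log X)) * (k / H) + C * X * Real.exp (-(Real.log X) / k)
  coll : ∀ X z H : ℕ, 1 ≤ X → 1 ≤ z → 1 ≤ H → (((SS X).filter fun S =>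
    ¬ Set.InjOn (bl H) (la z S : Set Ei)).card : ℝ) ≤ C * (X * (1 + Real.log X)) / H + C * X / z

/-- CNT -/
def S_CNT : Prop := ∃ C : ℝ, CntP C

/-- BAD: few sets have degenerate labels. -/
def S_BAD (β : Ei → ZMod 3) : Prop := ∀ ε : ℝ, 0 < ε → ∃ X₀ : ℕ, ∀ X : ℕ, X₀ ≤ X →
  (((SS X).filter fun S => S.card ≤ kk X ∧
    ¬ Nd β (sm (zz X) S) (la (zz X) S)).card : ℝ) ≤ ε * X

/-- FEW: few sets have few large primes. -/
def S_FEW : Prop := ∀ (V : ℕ) (ε : ℝ), 0 < ε → ∃ X₀ : ℕ, ∀ X : ℕ, X₀ ≤ X →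
  (((SS X).filter fun S => S.card ≤ kk X ∧ (la (zz X) S).card ≤ (sm (zz X) S).card + V).card : ℝ) ≤
    ε * X

/-- LOW: the class has positive density. -/
def S_LOW : Prop := ∃ (c : ℝ) (X₀ : ℕ), 0 < c ∧ ∀ X : ℕ, X₀ ≤ X → c * X ≤ ((SS X).card : ℝ)

end Pool.Agent.Helper68.C3
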