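import Pool.Agent.Helper68.C3.St3
import Pool.Graph.R_seed8.Y699.E.Hal2

/-!
Sums of the cubic symbols twisted by a character modulo nine (adapted from
`Pool.Agent.Y699.E.Jsum` and `Pool.Agent.Y699.E.Hal2`).
-/

set_option autoImplicit false

open Finset

namespace Pool.Agent.Helper68.C3.Ch3

open Pool.Agent.Y692.QS (Ei w nr ns ns_mul ns_one ns_fix nr_mul)
open Pool.Agent.Y715.T.Rec (cs)
open Pool.Agent.Y715.T.RecG (Pq)
open Pool.Agent.Y699.E
open scoped ComplexConjugate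

variable {β : Ei → ZMod 3}

lemma bt_one (h : Bt β) : β 1 = 0 := by
  have h1 := h.mul 1 1 prm_one prm_one
  rw [mul_one] at h1
  exact left_eq_add.1 h1

open Classical in
/-- the extension of the character `β ^ c` to all elements -/
noncomputable def eb (β : Ei → ZMod 3) (c : ZMod 3) (a : Ei) : ℂ :=
  if (3 : ℤ) ∣ nr a then 0 else ez (c * β (ns a))

lemma not_three_nr {a : Ei} (h : prm a) : ¬ (3 : ℤ) ∣ nr a := by
  obtain ⟨k, hk⟩ := h
  have h1 : a = 1 + 3 * k := by rw [← hk]; ring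
  have e : nr a = 1 + 3 * (2 * k.re - k.im + 3 * nr k) := by
    rw [h1]
    unfold nr
    have e1 : ((1 : Ei) + 3 * k).re = 1 + 3 * k.re := by
      have e2 : (3 : Ei).re = 3 := rfl
      have e3 : (3 : Ei).im = 0 := rfl
      rw [QuadraticAlgebra.re_add, Pool.Agent.Y692.QS.mul_re, e2, e3]
      show (1 : ℤ) + _ = _
      ring
    have e4 : ((1 : Ei) + 3 * k).im = 3 * k.im := by
      have e2 : (3 : Ei).re = 3 := rfl
      have e3 : (3 : Ei).im = 0 := rfl
      rw [QuadraticAlgebra.im_add, Pool.Agent.Y692.QS.mul_im, e2, e3]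
      show (0 : ℤ) + _ = _
      ring
    rw [e1, e4]
    ring
  rw [e]
  omega

lemma eb_prm {c : ZMod 3} {a : Ei} (h : prm a) : eb β c a = ez (c * β a) := by
  unfold eb
  rw [if_neg (not_three_nr h), ns_fix h]

lemma eb_mul (hβ : Bt β) (c : ZMod 3) (a b : Ei) : eb β c (a * b) = eb β c a * eb β c b := by
  unfold eb
  have h3 : Prime (3 : ℤ) := Int.prime_three
  by_cases ha : (3 : ℤ) ∣ nr a
  · rw [if_pos (by rw [nr_mul]; exact ha.mul_right _), if_pos ha, zero_mul]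
  · by_cases hb : (3 : ℤ) ∣ nr b
    · rw [if_pos (by rw [nr_mul]; exact hb.mul_left _), if_pos hb, mul_zero]
    · rw [if_neg (by rw [nr_mul]; exact fun h => (h3.dvd_or_dvd h).elim ha hb), if_neg ha,
        if_neg hb, ns_mul, hβ.mul _ _ (ns_one ha) (ns_one hb), mul_add, ez_add]

/-- the character attached to two elements and `β` -/
noncomputable def xb (β : Ei → ZMod 3) (c : ZMod 3) (A B : Ei) (a : Ei) : ℂ :=
  xab A B a * eb β c a

lemma xb_ch (hβ : Bt β) (c : ZMod 3) {A B : Ei} (hA : PS A) (hB : PS B) : CH (xb β c A B) := by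
  have h := xab_ch hA hB
  refine ⟨?_, ?_, ?_⟩
  · unfold xb
    rw [h.one, eb_prm prm_one, bt_one hβ, mul_zero, ez_zero, mul_one]
  · intro a b
    unfold xb
    rw [h.mul, eb_mul hβ]
    ring
  · intro a
    unfold xb xab
    rcases jac_cases A a with h1 | ⟨c1, h1⟩
    · left; rw [h1, zero_mul, zero_mul]
    · rcases jac_cases B a with h2 | ⟨c2, h2⟩
      · left; rw [h2, map_zero, mul_zero, zero_mul]
      · by_cases h3 : (3 : ℤ) ∣ nr a
        · left
          unfold eb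
          rw [if_pos h3, mul_zero]
        · right
          unfold eb
          rw [if_neg h3, h1, h2, conj_ez, ← ez_add, ← ez_add]
          exact ez_val _

/-- the function on the primary elements -/
noncomputable def FB (β : Ei → ZMod 3) (c : ZMod 3) (x x' a : Ei) : ℂ :=
  FF2 x x' a * eb β c a

lemma eb_norm (c : ZMod 3) (a : Ei) : ‖eb β c a‖ ≤ 1 := by
  unfold eb
  split_ifs
  · simp
  · rw [norm_ez]

lemma FB_norm (c : ZMod 3) (x x' a : Ei) : ‖FB β c x x' a‖ ≤ 1 := by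
  unfold FB
  rw [norm_mul]
  exact mul_le_one₀ (FF2_norm _ _ _) (norm_nonneg _) (eb_norm _ _)

lemma eb_conj (c : ZMod 3) (a : Ei) : eb β c a = conj (eb β (-c) a) := by
  unfold eb
  split_ifs
  · simp
  · rw [conj_ez]
    congr 1
    ring

lemma FB_symm (c : ZMod 3) (x x' a : Ei) : FB β c x x' a = conj (FB β (-c) x' x a) := by
  unfold FB
  rw [map_mul, ← FF2_symm, ← eb_conj]

lemma nine_ne : (9 : Ei) ≠ 0 := by decide

lemma nrm_nine : nrm (9 : Ei) = 81 := by decide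

lemma prm_of_nine {a b : Ei} (h : (9 : Ei) ∣ a - b) : prm a ↔ prm b := by
  have e1 : (3 : Ei) ∣ a - b := dvd_trans ⟨3, by norm_num⟩ h
  unfold prm
  constructor
  · intro h
    have := dvd_sub h e1
    have e : a - 1 - (a - b) = b - 1 := by ring
    rwa [e] at this
  · intro h
    have := dvd_add h e1
    have e : b - 1 + (a - b) = a - 1 := by ring
    rwa [e] at this

lemma FB_per (hβ : Bt β) (c : ZMod 3) {x x' : Ei} (hx : x ≠ 0) (hx' : x' ≠ 0) (a b : Ei)
    (hab : 9 * (x * x') ∣ a - b) : FB β c x x' a = FB β c x x' b := by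
  have e1 : (9 : Ei) ∣ a - b := (dvd_mul_right _ _).trans hab
  have e2 : x ∣ a - b := ((dvd_mul_right _ _).trans (dvd_mul_left _ _)).trans hab
  have e3 : x' ∣ a - b := ((dvd_mul_left _ _).trans (dvd_mul_left _ _)).trans hab
  have e4 := prm_of_nine e1
  unfold FB FF2
  rw [jac_per hx e2, jac_per hx' e3]
  by_cases h : prm a
  · rw [if_pos h, if_pos (e4.1 h), eb_prm h, eb_prm (e4.1 h), hβ.per a b h (e4.1 h) e1]
  · rw [if_neg h, if_neg (fun hh => h (e4.2 hh)), zero_mul, zero_mul]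

/-- the general estimate from an element with nontrivial value -/
lemma FB_sum_of (hβ : Bt β) (c : ZMod 3) {x x' : Ei} (hx : PS x) (hx' : PS x') {d : Ei}
    (hd : prm d) (hc : IsCoprime d (x * x')) {z : ℂ} (hz : z ≠ 1)
    (hz' : jac x d * conj (jac x' d) * ez (c * β d) = z) (V : ℕ) :
    ‖∑ a ∈ ZB V, FB β c x x' a‖ ≤ 243 * (nrm x * nrm x') * (3 * Real.sqrt V + 1) := by
  classical
  have hq : 9 * (x * x') ≠ 0 := mul_ne_zero nine_ne (mul_ne_zero hx.ne hx'.ne)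
  have hcop : IsCoprime d (9 * (x * x')) := by
    refine IsCoprime.mul_right ?_ hc
    obtain ⟨k, hk⟩ := hd
    have h3 : IsCoprime d (3 : Ei) := ⟨1, -k, by linear_combination hk⟩
    have h9 := h3.mul_right h3
    have e : (3 : Ei) * 3 = 9 := by norm_num
    rwa [e] at h9
  have h3 := csum hq (f := FB β c x x') (FB_per hβ c hx.ne hx'.ne) (FB_norm c x x') hcop hz ?_ V
  · refine h3.trans (le_of_eq ?_)
    rw [nrm_mul, nrm_mul, nrm_nine]
    push_cast
    ring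
  · intro a
    unfold FB FF2
    have e4 : prm (d * a) ↔ prm a :=
      ⟨fun h => prm_cancel hd h, fun h => prm_mul hd h⟩
    by_cases h : prm a
    · rw [if_pos h, if_pos (e4.2 h), jac_mul_right hx.ne, jac_mul_right hx'.ne, eb_mul hβ,
        eb_prm hd, map_mul, ← hz']
      ring
    · rw [if_neg h, if_neg (fun hh => h (e4.1 hh)), zero_mul, zero_mul, mul_zero]

/-- prescribed symbols, one modulo nine -/
lemma exists_twist9 {S : Finset Ei} (hS : ∀ ρ ∈ S, Pq ρ) {π : Ei} (hπ : Pq π) (hπS : π ∉ S) :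
    ∃ c : Ei, (9 : Ei) ∣ c - 1 ∧ chi π c ≠ 1 ∧ chi π c ≠ 0 ∧ (∀ ρ ∈ S, chi ρ c = 1) := by
  set m : Ei := 9 * ∏ ρ ∈ S, ρ with hm
  have hcop : IsCoprime π m := by
    refine IsCoprime.mul_right ?_ ?_
    · have h3 := ((hπ.prime.irreducible.coprime_iff_not_dvd).2 hπ.norm)
      have h9 := h3.mul_right h3
      have e : (3 : Ei) * 3 = 9 := by norm_num
      rwa [e] at h9
    · rw [IsCoprime.prod_right_iff]
      intro ρ hρ
      exact pq_cop hπ (hS ρ hρ) fun h => hπS (by rw [h]; exact hρ)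
  obtain ⟨b, hb0, hb⟩ := exists_nonres hπ
  obtain ⟨x, y, hxy⟩ := hcop
  set a : Ei := x * π + b * (y * m) with ha
  have ha1 : m ∣ a - 1 := ⟨b * y - y, by rw [ha]; linear_combination hxy⟩
  have ha2 : π ∣ a - b := ⟨x - b * x, by rw [ha]; linear_combination b * hxy⟩
  refine ⟨a, (dvd_mul_right _ _).trans ha1, ?_, ?_, ?_⟩
  · rw [chi_per hπ ha2, chi_of hb0]
    exact ez_ne hb
  · rw [chi_per hπ ha2, chi_of hb0]
    exact ez_ne_zero _
  · intro ρ hρ
    have h1 : ρ ∣ a - 1 := (Finset.dvd_prod_of_mem _ hρ).trans ((dvd_mul_left _ _).trans ha1)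
    rw [chi_per (hS ρ hρ) h1, chi_one (hS ρ hρ)]

lemma FB_sum_aux (hβ : Bt β) (c : ZMod 3) {x x' : Ei} (hx : PS x) (hx' : PS x') {π : Ei}
    (h1 : π ∈ PD x) (h2 : π ∉ PD x') (V : ℕ) :
    ‖∑ a ∈ ZB V, FB β c x x' a‖ ≤ 243 * (nrm x * nrm x') * (3 * Real.sqrt V + 1) := by
  classical
  have hπ := ((mem_PD hx.ne).1 h1).1
  have hS : ∀ ρ ∈ (PD x).erase π ∪ PD x', Pq ρ := by
    intro ρ hρ
    rw [mem_union] at hρ
    rcases hρ with h | h
    · exact ((mem_PD hx.ne).1 (mem_of_mem_erase h)).1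
    · exact ((mem_PD hx'.ne).1 h).1
  obtain ⟨d, hd9, hc2, hc4, hc3⟩ := exists_twist9 hS hπ (by
    rw [mem_union, not_or]
    exact ⟨notMem_erase _ _, h2⟩)
  have hd : prm d := (prm_of_nine hd9).2 prm_one
  have hjx : jac x d = chi π d := by
    unfold jac
    rw [← mul_prod_erase (PD x) _ h1, prod_eq_one, mul_one]
    intro ρ hρ
    exact hc3 ρ (mem_union_left _ hρ)
  have hjx' : jac x' d = 1 := prod_eq_one fun ρ hρ => hc3 ρ (mem_union_right _ hρ)
  have hcop : IsCoprime d (x * x') := by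
    refine IsCoprime.mul_right
      (jac_cop hx (by rw [hjx]; exact hc4)).symm
      (jac_cop hx' (by rw [hjx']; exact one_ne_zero)).symm
  refine FB_sum_of hβ c hx hx' hd hcop hc2 ?_ V
  rw [hjx, hjx', map_one, mul_one, hβ.per d 1 hd prm_one hd9, bt_one hβ, mul_zero, ez_zero, mul_one]

theorem FB_sum_ne (hβ : Bt β) (c : ZMod 3) {x x' : Ei} (hx : PS x) (hx' : PS x') (hne : x ≠ x')
    (V : ℕ) :
    ‖∑ a ∈ ZB V, FB β c x x' a‖ ≤ 243 * (nrm x * nrm x') * (3 * Real.sqrt V + 1) := by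
  have h1 : PD x ≠ PD x' := by
    intro h
    apply hne
    rw [← hx.prod, ← hx'.prod, h]
  by_cases h2 : PD x ⊆ PD x'
  · have h3 : ¬ PD x' ⊆ PD x := fun h => h1 (Subset.antisymm h2 h)
    obtain ⟨π, hπ, hπ'⟩ := not_subset.1 h3
    have := FB_sum_aux hβ (-c) hx' hx hπ hπ' V
    simp_rw [FB_symm c x x']
    rw [← map_sum, Complex.norm_conj, mul_comm (nrm x : ℝ)]
    exact this
  · obtain ⟨π, hπ, hπ'⟩ := not_subset.1 h2
    exact FB_sum_aux hβ c hx hx' hπ hπ' V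

theorem FB_sum_one (hβ : Bt β) {c : ZMod 3} (hc : c ≠ 0) (V : ℕ) :
    ‖∑ a ∈ ZB V, FB β c 1 1 a‖ ≤ 243 * (nrm 1 * nrm 1) * (3 * Real.sqrt V + 1) := by
  obtain ⟨d, hd, hd0⟩ := hβ.nt
  refine FB_sum_of hβ c PS_one PS_one hd (by rw [mul_one]; exact isCoprime_one_right)
    (z := ez (c * β d)) (ez_ne (mul_ne_zero hc hd0)) ?_ V
  rw [jac_one_left, map_one, mul_one, one_mul]

/-- character sums -/
lemma chs_le {A B : Ei} (hβ : Bt β) (c : ZMod 3) (hA : PS A) (hB : PS B)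
    (h1 : A ≠ B ∨ (A = 1 ∧ B = 1 ∧ c ≠ 0)) {v : ℕ} (hv : 1 ≤ v) :
    ‖∑ d ∈ PB v, xb β c A B d‖ ≤ 972 * (nrm A * nrm B : ℕ) * Real.sqrt v := by
  classical
  have h : ‖∑ a ∈ ZB v, FB β c A B a‖ ≤ 243 * (nrm A * nrm B) * (3 * Real.sqrt v + 1) := by
    rcases h1 with h1 | ⟨rfl, rfl, h1⟩
    · exact FB_sum_ne hβ c hA hB h1 v
    · exact FB_sum_one hβ h1 v
  have e : ∑ a ∈ ZB v, FB β c A B a = ∑ d ∈ PB v, xb β c A B d := by
    unfold PB
    rw [sum_filter]
    refine sum_congr rfl fun a _ => ?_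
    unfold FB FF2 xb xab
    split_ifs
    · rfl
    · rw [zero_mul]
  rw [e] at h
  have h2 : (1 : ℝ) ≤ Real.sqrt v := Real.one_le_sqrt.2 (by exact_mod_cast hv)
  have h3 : (0 : ℝ) ≤ (nrm A : ℝ) * nrm B := by positivity
  refine h.trans ?_
  push_cast
  nlinarith

/-- partial sums of the L-series at 1 -/
theorem chs_log {A B : Ei} (hβ : Bt β) (c : ZMod 3) (hA : PS A) (hB : PS B)
    (h1 : A ≠ B ∨ (A = 1 ∧ B = 1 ∧ c ≠ 0)) (Y : ℕ) :
    ‖∑ d ∈ PB Y, xb β c A B d / nrm d‖ ≤ 1992 * lg (nrm A * nrm B) := by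
  classical
  have hN1 : 1 ≤ nrm A * nrm B := Nat.mul_pos (nrm_pos' hA.ne) (nrm_pos' hB.ne)
  have hch := xb_ch hβ c hA hB
  set χ := xb β c A B with hχ
  set N := nrm A * nrm B with hN
  have hlg := one_le_lg N
  rcases Nat.eq_zero_or_pos Y with h0 | hY
  · have : PB Y = ∅ := by
      rw [eq_empty_iff_forall_notMem]
      intro x hx
      rw [mem_PB] at hx
      have := nrm_pos' (prm_ne_zero hx.2)
      omega
    rw [this, sum_empty, norm_zero]
    linarith
  have hYr : (0 : ℝ) < Y := by exact_mod_cast hY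
  -- summation by parts
  have e1 : ∑ d ∈ PB Y, χ d / nrm d = (∑ d ∈ PB Y, χ d) * ((1 / Y : ℝ) : ℂ) +
      ∑ v ∈ Ico 1 Y, (∑ d ∈ PB v, χ d) * ((1 / ((v : ℝ) * (v + 1)) : ℝ) : ℂ) := by
    have e2 : ∀ d ∈ PB Y, χ d / nrm d = χ d * ((1 / Y : ℝ) : ℂ) +
        ∑ v ∈ Ico 1 Y, if nrm d ≤ v then χ d * ((1 / ((v : ℝ) * (v + 1)) : ℝ) : ℂ) else 0 := by
      intro d hd
      rw [mem_PB] at hd
      have hd1 := nrm_pos' (prm_ne_zero hd.2)
      have h2 := inv_tel (nrm d) hd1 Y hd.1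
      have h3 : χ d / (nrm d : ℂ) = χ d * ((1 / (nrm d : ℝ) : ℝ) : ℂ) := by
        push_cast
        rw [mul_one_div]
      rw [h3, h2, Complex.ofReal_add, mul_add]
      congr 1
      rw [Complex.ofReal_sum, mul_sum, ← sum_filter]
      refine sum_congr ?_ fun _ _ => rfl
      ext v
      rw [mem_filter, mem_Ico, mem_Ico]
      constructor
      · rintro ⟨a1, a2⟩; exact ⟨⟨by omega, a2⟩, a1⟩
      · rintro ⟨⟨-, a2⟩, a1⟩; exact ⟨a1, a2⟩
    rw [sum_congr rfl e2, sum_add_distrib, ← sum_mul, sum_comm]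
    congr 1
    refine sum_congr rfl fun v hv => ?_
    rw [mem_Ico] at hv
    rw [← sum_filter, ← sum_mul]
    congr 1
    refine sum_congr ?_ fun _ _ => rfl
    ext d
    rw [mem_filter, mem_PB, mem_PB]
    constructor
    · rintro ⟨⟨-, a2⟩, a1⟩; exact ⟨a1, a2⟩
    · rintro ⟨a1, a2⟩; exact ⟨⟨by omega, a2⟩, a1⟩
  rw [e1]
  refine (norm_add_le _ _).trans ?_
  have nr : ∀ {r : ℝ}, 0 ≤ r → ‖(r : ℂ)‖ = r := fun {r} h => by
    rw [Complex.norm_real, Real.norm_of_nonneg h]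
  have e3 : ‖(∑ d ∈ PB Y, χ d) * ((1 / Y : ℝ) : ℂ)‖ ≤ 16 := by
    rw [norm_mul, nr (by positivity), mul_one_div, div_le_iff₀ hYr]
    exact chs_le' hch hY
  have e4 : ∀ v ∈ Ico 1 Y, ‖(∑ d ∈ PB v, χ d) * ((1 / ((v : ℝ) * (v + 1)) : ℝ) : ℂ)‖ ≤
      (if v < N ^ 2 then 16 * (1 / ((v : ℝ) + 1)) else 0) +
      (if N ^ 2 ≤ v then 972 * N * (Real.sqrt v / (v * (v + 1))) else 0) := by
    intro v hv
    rw [mem_Ico] at hv
    have v0 : (0 : ℝ) < v := by exact_mod_cast hv.1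
    have hp : (0 : ℝ) < 1 / ((v : ℝ) * (v + 1)) := by positivity
    rw [norm_mul, nr hp.le]
    by_cases h : v < N ^ 2
    · rw [if_pos h, if_neg (by omega), add_zero]
      calc ‖∑ d ∈ PB v, χ d‖ * (1 / ((v : ℝ) * (v + 1))) ≤ (16 * v) * (1 / ((v : ℝ) * (v + 1))) :=
            mul_le_mul_of_nonneg_right (chs_le' hch hv.1) hp.le
        _ = 16 * (1 / ((v : ℝ) + 1)) := by field_simp
    · rw [if_neg h, if_pos (by omega), zero_add]
      calc ‖∑ d ∈ PB v, χ d‖ * (1 / ((v : ℝ) * (v + 1))) ≤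
            (972 * N * Real.sqrt v) * (1 / ((v : ℝ) * (v + 1))) :=
            mul_le_mul_of_nonneg_right (chs_le hβ c hA hB h1 hv.1) hp.le
        _ = 972 * N * (Real.sqrt v / (v * (v + 1))) := by ring
  have e5 : ‖∑ v ∈ Ico 1 Y, (∑ d ∈ PB v, χ d) * ((1 / ((v : ℝ) * (v + 1)) : ℝ) : ℂ)‖ ≤
      16 * (2 * lg N) + 1944 := by
    refine (norm_sum_le _ _).trans ((sum_le_sum e4).trans ?_)
    rw [sum_add_distrib]
    have hN2 : 1 ≤ N ^ 2 := Nat.one_le_pow _ _ hN1
    have a1 : ∑ v ∈ Ico 1 Y, (if v < N ^ 2 then 16 * (1 / ((v : ℝ) + 1)) else 0) ≤ 16 * (2 * lg N) := by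
      rw [← sum_filter, ← mul_sum]
      have h2 : ∑ v ∈ (Ico 1 Y).filter (fun v => v < N ^ 2), (1 : ℝ) / ((v : ℝ) + 1) ≤
          ∑ v ∈ Ico 1 (N ^ 2), (1 : ℝ) / ((v : ℝ) + 1) := by
        refine sum_le_sum_of_subset_of_nonneg ?_ (fun _ _ _ => by positivity)
        intro v hv
        rw [mem_filter, mem_Ico] at hv
        rw [mem_Ico]
        exact ⟨hv.1.1, hv.2⟩
      have h3 := harm_le (N ^ 2) hN2
      have h4 : Real.log ((N ^ 2 : ℕ) : ℝ) = 2 * Real.log N := by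
        push_cast
        rw [Real.log_pow]
        push_cast
        ring
      rw [h4] at h3
      have h5 := log_le_lg hN1
      linarith
    have a2 : ∑ v ∈ Ico 1 Y, (if N ^ 2 ≤ v then 972 * (N : ℝ) * (Real.sqrt v / (v * (v + 1))) else 0) ≤ 1944 := by
      rw [← sum_filter, ← mul_sum]
      have h2 : ∑ v ∈ (Ico 1 Y).filter (fun v => N ^ 2 ≤ v), Real.sqrt v / ((v : ℝ) * (v + 1)) ≤
          ∑ v ∈ Ico (N ^ 2) (max Y (N ^ 2)), Real.sqrt v / ((v : ℝ) * (v + 1)) := by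
        refine sum_le_sum_of_subset_of_nonneg ?_ (fun _ _ _ => by positivity)
        intro v hv
        rw [mem_filter, mem_Ico] at hv
        rw [mem_Ico]
        exact ⟨hv.2, lt_of_lt_of_le hv.1.2 (le_max_left _ _)⟩
      have h3 := sqrt_tel (N ^ 2) hN2 (max Y (N ^ 2)) (le_max_right _ _)
      have h4 : Real.sqrt ((N ^ 2 : ℕ) : ℝ) = N := by
        push_cast
        exact Real.sqrt_sq (Nat.cast_nonneg _)
      rw [h4] at h3
      have h5 : (0 : ℝ) ≤ 1 / Real.sqrt ((max Y (N ^ 2) : ℕ) : ℝ) := by positivity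
      have Nr : (0 : ℝ) < N := by exact_mod_cast hN1
      calc 972 * (N : ℝ) * ∑ v ∈ (Ico 1 Y).filter (fun v => N ^ 2 ≤ v), Real.sqrt v / ((v : ℝ) * (v + 1))
          ≤ 972 * N * (2 * (1 / N)) := by
            apply mul_le_mul_of_nonneg_left _ (by positivity)
            linarith
        _ = 1944 := by field_simp; norm_num
    linarith
  linarith

/-- **the mean value for a character** -/
theorem hallB {A B : Ei} (hβ : Bt β) (c : ZMod 3) (hA : PS A) (hB : PS B)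
    (h1 : A ≠ B ∨ (A = 1 ∧ B = 1 ∧ c ≠ 0)) (T : ℕ) :
    ∑ n ∈ SB T, mf (fun π => (1 + 2 * (xb β c A B π).re) / 3) n ≤
      5670 * (lg (nrm A * nrm B)) ^ (1 / 3 : ℝ) * (T * (lg T) ^ (-(1 / 3) : ℝ)) := by
  classical
  rcases Nat.eq_zero_or_pos T with h0 | hT
  · rw [SB_empty h0, sum_empty]
    have h2 := lg_pos T
    have h3 := lg_pos (nrm A * nrm B)
    positivity
  have hch := xb_ch hβ c hA hB
  have hl := one_le_lg (nrm A * nrm B)
  have hlT := lg_pos T
  have hAA : ∑ n ∈ PB (T ^ 3), mf (fun π => 3 * ((1 + 2 * (xb β c A B π).re) / 3)) n / nrm n ≤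
      (19683000 * lg (nrm A * nrm B)) * lg T ^ 2 := by
    have e1 : (fun π : Ei => 3 * ((1 + 2 * (xb β c A B π).re) / 3)) =
        fun π => 1 + 2 * (xb β c A B π).re := by
      funext π; ring
    rw [e1]
    refine (conv_bound hch (chs_log hβ c hA hB h1) (T ^ 3)).trans ?_
    have e5 := lg_cube T
    have e6 := lg_pos (T ^ 3)
    have e7 : (32 * lg (T ^ 3)) ^ 2 ≤ (96 * lg T) ^ 2 := by
      apply pow_le_pow_left₀ (by positivity)
      linarith
    calc (32 * lg (T ^ 3)) ^ 2 * (1992 * lg (nrm A * nrm B)) ≤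
          (96 * lg T) ^ 2 * (1992 * lg (nrm A * nrm B)) := by
          apply mul_le_mul_of_nonneg_right e7 (by positivity)
      _ = 18358272 * (lg (nrm A * nrm B) * lg T ^ 2) := by ring
      _ ≤ 19683000 * (lg (nrm A * nrm B) * lg T ^ 2) := by
          have : 0 ≤ lg (nrm A * nrm B) * lg T ^ 2 := by positivity
          linarith
      _ = _ := by ring
  have hv := fun π => hch.val π
  have h2 := hall_aux (g := fun π => (1 + 2 * (xb β c A B π).re) / 3)
    (fun π => by have := re_nonneg (hv π); linarith)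
    (fun π => by have := re_le (hv π); linarith) hT (by linarith) hAA
  refine h2.trans (le_of_eq ?_)
  have e : (19683000 * lg (nrm A * nrm B)) ^ (1 / 3 : ℝ) = 270 * (lg (nrm A * nrm B)) ^ (1 / 3 : ℝ) := by
    rw [Real.mul_rpow (by norm_num) (by linarith)]
    congr 1
    rw [show (19683000 : ℝ) = 270 ^ (3 : ℝ) by norm_num, ← Real.rpow_mul (by norm_num)]
    norm_num
  rw [e]
  ring

end Pool.Agent.Helper68.C3.Ch3
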