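import Pool.Agent.Helper68.C3.St3
import Pool.Graph.R_seed8.Y170.XL.BOX

/-! The count in a box (adapted from `Pool.Agent.Y170.XL`). -/

set_option autoImplicit false

open scoped Classical

namespace Pool.Agent.Helper68.C3.Box3

open Finset
open Pool.Agent.Y692.QS (Ei)
open Pool.Agent.Y715.T.Rec (cs)
open Pool.Agent.Y715.T.RecG (Pq)
open Pool.Agent.Y703.XK (HB prs S_EQ)
open Pool.Agent.Y703.XL (nA cr S_LA)
open Pool.Agent.Y688.XK (cs_symm ext_sum HB_sub ez0 ez0_coe)
open Pool.Agent.Y170.XL (em em_bij fe fe_one fe_two sum_em)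
open Pool.Agent.Helper68.C3

/-- the label of a prime with respect to the small primes and `β` -/
noncomputable def lb (β : Ei → ZMod 3) (S₀ : Finset Ei) (x : Ei) : Option S₀ → ZMod 3 :=
  fun u => u.elim (β x) fun u => cs u x

/-- the matrix of the small primes -/
noncomputable def AA (β : Ei → ZMod 3) (S₀ : Finset Ei) (u v : Option S₀) : ZMod 3 :=
  u.elim (v.elim 0 fun v => β v) fun u => v.elim (β u) fun v => cs u v

/-- the good labels -/
def LN {ι : Type} (S₀ : Finset Ei) (b : ι → Option S₀ → ZMod 3) : Prop :=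
  ∀ w : Option S₀ → ZMod 3, (∃ u, w u ≠ 0) → ∃ i, ∑ u, w u * b i u ≠ 0

theorem AA_symm {β : Ei → ZMod 3} {S₀ : Finset Ei} (h : ∀ u ∈ S₀, Pq u) (u v : Option S₀) :
    AA β S₀ u v = AA β S₀ v u := by
  rcases u with _ | u <;> rcases v with _ | v
  · rfl
  · rfl
  · rfl
  · exact cs_symm (h u u.2) (h v v.2)

section one
variable {β : Ei → ZMod 3} {ι : Type} [Fintype ι] [LinearOrder ι] {S₀ : Finset Ei} {p : ι → Ei}

omit [LinearOrder ι] in
theorem nd_iff : Nd β S₀ (univ.image p) ↔ LN S₀ (fun i => lb β S₀ (p i)) := by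
  unfold Nd LN
  constructor
  · intro h w hw
    obtain ⟨x, hx, hx2⟩ := h (w none) (ez0 fun u => w (some u)) (by
      obtain ⟨u, hu⟩ := hw
      rcases u with _ | u
      · exact Or.inl hu
      · exact Or.inr ⟨u, u.2, by rw [ez0_coe]; exact hu⟩)
    rw [Finset.mem_image] at hx
    obtain ⟨i, -, rfl⟩ := hx
    refine ⟨i, ?_⟩
    rw [← Finset.sum_coe_sort S₀] at hx2
    intro h0
    apply hx2
    rw [← h0, Fintype.sum_option]
    congr 1
    refine Finset.sum_congr rfl fun u _ => ?_
    rw [ez0_coe]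
    rfl
  · intro h t w hw
    obtain ⟨i, hi⟩ := h (fun u => u.elim t fun u => w u) (by
      rcases hw with hw | ⟨u, hu0, hu⟩
      · exact ⟨none, hw⟩
      · exact ⟨some ⟨u, hu0⟩, hu⟩)
    refine ⟨p i, Finset.mem_image_of_mem _ (Finset.mem_univ _), ?_⟩
    rw [← Finset.sum_coe_sort S₀]
    rw [Fintype.sum_option] at hi
    exact hi

/-- the solutions with a shift -/
noncomputable def sh (hp : Function.Injective p) (hd : ∀ i, p i ∉ S₀) :
    (↥(S₀ ∪ univ.image p) → ZMod 3) × ZMod 3 ≃ (Option S₀ → ZMod 3) × (ι → ZMod 3) where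
  toFun q := (fun u => u.elim q.2 fun u => q.1 (em S₀ p (Sum.inl u)) + q.2,
    fun l => q.1 (em S₀ p (Sum.inr l)) + q.2)
  invFun c := ((fe hp hd).symm (fun u => c.1 (some u) - c.1 none, fun l => c.2 l - c.1 none),
    c.1 none)
  left_inv q := by
    refine Prod.ext ?_ rfl
    show (fe hp hd).symm _ = q.1
    rw [Equiv.symm_apply_eq]
    refine Prod.ext (funext fun u => ?_) (funext fun l => ?_)
    · rw [fe_one]
      show q.1 _ + q.2 - q.2 = _
      ring
    · rw [fe_two]
      show q.1 _ + q.2 - q.2 = _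
      ring
  right_inv c := by
    set v := (fe hp hd).symm (fun u => c.1 (some u) - c.1 none, fun l => c.2 l - c.1 none) with hv
    have h := (fe hp hd).apply_symm_apply
      (fun u => c.1 (some u) - c.1 none, fun l => c.2 l - c.1 none)
    rw [← hv] at h
    have h1 : ∀ u, v (em S₀ p (Sum.inl u)) = c.1 (some u) - c.1 none := fun u => by
      rw [← fe_one hp hd v u, h]
    have h2 : ∀ l, v (em S₀ p (Sum.inr l)) = c.2 l - c.1 none := fun l => by
      rw [← fe_two hp hd v l, h]
    refine Prod.ext (funext fun u => ?_) (funext fun l => ?_)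
    · rcases u with _ | u
      · rfl
      · show v (em S₀ p (Sum.inl u)) + c.1 none = c.1 (some u)
        rw [h1]
        ring
    · show v (em S₀ p (Sum.inr l)) + c.1 none = c.2 l
      rw [h2]
      ring

/-- the sum of the equations -/
theorem sum_zero {S : Finset Ei} (hS : ∀ π ∈ S, Pq π) (v : S → ZMod 3)
    (h : ∀ π : S, ∑ ρ : S, cs π ρ * (v ρ - v π) = β π * v π) : ∑ π : S, β π * v π = 0 := by
  rw [← Finset.sum_congr rfl fun π _ => h π]
  have e1 : ∑ π : S, ∑ ρ : S, cs (π : Ei) ρ * (v ρ - v π) =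
      ∑ π : S, ∑ ρ : S, cs (π : Ei) ρ * v ρ - ∑ π : S, ∑ ρ : S, cs (π : Ei) ρ * v π := by
    rw [← Finset.sum_sub_distrib]
    refine Finset.sum_congr rfl fun π _ => ?_
    rw [← Finset.sum_sub_distrib]
    exact Finset.sum_congr rfl fun ρ _ => by ring
  have e2 : ∑ π : S, ∑ ρ : S, cs (π : Ei) ρ * v ρ = ∑ π : S, ∑ ρ : S, cs (π : Ei) ρ * v π := by
    rw [Finset.sum_comm]
    refine Finset.sum_congr rfl fun ρ _ => Finset.sum_congr rfl fun π _ => ?_
    rw [cs_symm (hS π π.2) (hS ρ ρ.2)]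
  rw [e1, e2, sub_self]

/-- **the numbers of solutions agree** -/
theorem nB_eq (hp : Function.Injective p) (hpr : ∀ i, Pq (p i)) (hS₀ : ∀ u ∈ S₀, Pq u)
    (hd : ∀ i, p i ∉ S₀) :
    nA (AA β S₀) (fun (u : Option S₀) l => lb β S₀ (p l) u)
      (Pool.Agent.Y703.XK.ext fun e : prs ι => cs (p e.1.1) (p e.1.2)) =
    nB β (S₀ ∪ univ.image p) * 3 := by
  have hall : ∀ π ∈ S₀ ∪ univ.image p, Pq π := by
    intro π hπ
    rcases Finset.mem_union.1 hπ with h | h
    · exact hS₀ π h
    · obtain ⟨k, -, rfl⟩ := Finset.mem_image.1 h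
      exact hpr k
  have key : ∀ q : (↥(S₀ ∪ univ.image p) → ZMod 3) × ZMod 3,
      (∀ π : ↥(S₀ ∪ univ.image p), ∑ ρ : ↥(S₀ ∪ univ.image p), cs π ρ * (q.1 ρ - q.1 π) =
        β π * q.1 π) ↔
      ((∀ u, ∑ v, AA β S₀ u v * ((sh hp hd q).1 v - (sh hp hd q).1 u) +
          ∑ l, lb β S₀ (p l) u * ((sh hp hd q).2 l - (sh hp hd q).1 u) = 0) ∧
        ∀ k, ∑ u, lb β S₀ (p k) u * ((sh hp hd q).1 u - (sh hp hd q).2 k) +
          ∑ l, Pool.Agent.Y703.XK.ext (fun e : prs ι => cs (p e.1.1) (p e.1.2)) k l *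
            ((sh hp hd q).2 l - (sh hp hd q).2 k) = 0) := by
    rintro ⟨v, t⟩
    have s1 : (sh hp hd (v, t)).1 none = t := rfl
    have s2 : ∀ u, (sh hp hd (v, t)).1 (some u) = v (em S₀ p (Sum.inl u)) + t := fun _ => rfl
    have s3 : ∀ l, (sh hp hd (v, t)).2 l = v (em S₀ p (Sum.inr l)) + t := fun _ => rfl
    have hsym : ∀ k : ι, ∑ u : S₀, cs (p k) u *
        (v (em S₀ p (Sum.inl u)) - v (em S₀ p (Sum.inr k))) =
        ∑ u : S₀, cs u (p k) * (v (em S₀ p (Sum.inl u)) - v (em S₀ p (Sum.inr k))) := by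
      intro k
      refine Finset.sum_congr rfl fun u _ => ?_
      rw [cs_symm (hpr k) (hS₀ u u.2)]
    have hext := fun k => ext_sum hpr k (fun l => v (em S₀ p (Sum.inr l)))
    -- the equation at a small prime
    have t1 : ∀ u : S₀, ∑ w, AA β S₀ (some u) w * ((sh hp hd (v, t)).1 w -
          (sh hp hd (v, t)).1 (some u)) +
        ∑ l, lb β S₀ (p l) (some u) * ((sh hp hd (v, t)).2 l - (sh hp hd (v, t)).1 (some u)) =
        ∑ ρ : ↥(S₀ ∪ univ.image p), cs u ρ * (v ρ - v (em S₀ p (Sum.inl u))) -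
          β u * v (em S₀ p (Sum.inl u)) := by
      intro u
      rw [Fintype.sum_option, sum_em hp hd]
      have a1 : AA β S₀ (some u) none * ((sh hp hd (v, t)).1 none -
          (sh hp hd (v, t)).1 (some u)) = -(β u * v (em S₀ p (Sum.inl u))) := by
        rw [s1, s2]
        show β u * _ = _
        ring
      have a2 : ∀ w : S₀, AA β S₀ (some u) (some w) * ((sh hp hd (v, t)).1 (some w) -
          (sh hp hd (v, t)).1 (some u)) =
          cs u (em S₀ p (Sum.inl w)) * (v (em S₀ p (Sum.inl w)) - v (em S₀ p (Sum.inl u))) := by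
        intro w
        rw [s2, s2]
        show cs u w * _ = cs u w * _
        ring
      have a3 : ∀ l : ι, lb β S₀ (p l) (some u) * ((sh hp hd (v, t)).2 l -
          (sh hp hd (v, t)).1 (some u)) =
          cs u (em S₀ p (Sum.inr l)) * (v (em S₀ p (Sum.inr l)) - v (em S₀ p (Sum.inl u))) := by
        intro l
        rw [s2, s3]
        show cs u (p l) * _ = cs u (p l) * _
        ring
      rw [a1, Finset.sum_congr rfl fun w _ => a2 w, Finset.sum_congr rfl fun l _ => a3 l]
      ring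
    -- the equation at a large prime
    have t2 : ∀ k : ι, ∑ u, lb β S₀ (p k) u * ((sh hp hd (v, t)).1 u - (sh hp hd (v, t)).2 k) +
          ∑ l, Pool.Agent.Y703.XK.ext (fun e : prs ι => cs (p e.1.1) (p e.1.2)) k l *
            ((sh hp hd (v, t)).2 l - (sh hp hd (v, t)).2 k) =
        ∑ ρ : ↥(S₀ ∪ univ.image p), cs (p k) ρ * (v ρ - v (em S₀ p (Sum.inr k))) -
          β (p k) * v (em S₀ p (Sum.inr k)) := by
      intro k
      rw [Fintype.sum_option, sum_em hp hd]
      have a1 : lb β S₀ (p k) none * ((sh hp hd (v, t)).1 none - (sh hp hd (v, t)).2 k) =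
          -(β (p k) * v (em S₀ p (Sum.inr k))) := by
        rw [s1, s3]
        show β (p k) * _ = _
        ring
      have a2 : ∑ u : S₀, lb β S₀ (p k) (some u) * ((sh hp hd (v, t)).1 (some u) -
          (sh hp hd (v, t)).2 k) =
          ∑ u : S₀, cs (p k) (em S₀ p (Sum.inl u)) *
            (v (em S₀ p (Sum.inl u)) - v (em S₀ p (Sum.inr k))) := by
        have a4 := hsym k
        have a5 : ∑ u : S₀, cs (p k) (em S₀ p (Sum.inl u)) *
            (v (em S₀ p (Sum.inl u)) - v (em S₀ p (Sum.inr k))) = ∑ u : S₀, cs (p k) u *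
            (v (em S₀ p (Sum.inl u)) - v (em S₀ p (Sum.inr k))) := rfl
        rw [a5, a4]
        refine Finset.sum_congr rfl fun u _ => ?_
        rw [s2, s3]
        show cs u (p k) * _ = _
        ring
      have a3 : ∑ l, Pool.Agent.Y703.XK.ext (fun e : prs ι => cs (p e.1.1) (p e.1.2)) k l *
            ((sh hp hd (v, t)).2 l - (sh hp hd (v, t)).2 k) =
          ∑ l : ι, cs (p k) (em S₀ p (Sum.inr l)) *
            (v (em S₀ p (Sum.inr l)) - v (em S₀ p (Sum.inr k))) := by
        have a5 : ∑ l : ι, cs (p k) (em S₀ p (Sum.inr l)) *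
            (v (em S₀ p (Sum.inr l)) - v (em S₀ p (Sum.inr k))) = ∑ l : ι, cs (p k) (p l) *
            (v (em S₀ p (Sum.inr l)) - v (em S₀ p (Sum.inr k))) := rfl
        rw [a5, ← hext k]
        refine Finset.sum_congr rfl fun l _ => ?_
        rw [s3, s3]
        ring
      rw [a1, a2, a3]
      ring
    -- the equation at the additional vertex
    have t3 : ∑ w, AA β S₀ none w * ((sh hp hd (v, t)).1 w -
          (sh hp hd (v, t)).1 none) +
        ∑ l, lb β S₀ (p l) none * ((sh hp hd (v, t)).2 l - (sh hp hd (v, t)).1 none) =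
        ∑ ρ : ↥(S₀ ∪ univ.image p), β ρ * v ρ := by
      rw [Fintype.sum_option, sum_em hp hd]
      have a1 : AA β S₀ none none * ((sh hp hd (v, t)).1 none -
          (sh hp hd (v, t)).1 none) = 0 := by
        rw [sub_self, mul_zero]
      have a2 : ∀ w : S₀, AA β S₀ none (some w) * ((sh hp hd (v, t)).1 (some w) -
          (sh hp hd (v, t)).1 none) =
          β (em S₀ p (Sum.inl w)) * v (em S₀ p (Sum.inl w)) := by
        intro w
        rw [s1, s2]
        show β w * _ = β w * _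
        ring
      have a3 : ∀ l : ι, lb β S₀ (p l) none * ((sh hp hd (v, t)).2 l -
          (sh hp hd (v, t)).1 none) =
          β (em S₀ p (Sum.inr l)) * v (em S₀ p (Sum.inr l)) := by
        intro l
        rw [s1, s3]
        show β (p l) * _ = β (p l) * _
        ring
      rw [a1, Finset.sum_congr rfl fun w _ => a2 w, Finset.sum_congr rfl fun l _ => a3 l]
      ring
    constructor
    · intro h
      refine ⟨fun u => ?_, fun k => ?_⟩
      · rcases u with _ | u
        · rw [t3]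
          exact sum_zero hall v h
        · rw [t1]
          exact sub_eq_zero.2 (h (em S₀ p (Sum.inl u)))
      · rw [t2]
        exact sub_eq_zero.2 (h (em S₀ p (Sum.inr k)))
    · rintro ⟨h1, h2⟩ x
      obtain ⟨y, rfl⟩ := (em_bij hp hd).2 x
      rcases y with u | k
      · have := h1 (some u)
        rw [t1] at this
        exact sub_eq_zero.1 this
      · have := h2 k
        rw [t2] at this
        exact sub_eq_zero.1 this
  have e1 : nB β (S₀ ∪ univ.image p) * 3 = Nat.card ({v : ↥(S₀ ∪ univ.image p) → ZMod 3 //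
      ∀ π : ↥(S₀ ∪ univ.image p), ∑ ρ : ↥(S₀ ∪ univ.image p), cs π ρ * (v ρ - v π) =
        β π * v π} × ZMod 3) := by
    rw [Nat.card_prod, Nat.card_zmod]
    rfl
  rw [e1]
  unfold nA
  refine Nat.card_congr (Equiv.trans ?_ (Equiv.prodSubtypeFstEquivSubtypeProd
    (p := fun v : ↥(S₀ ∪ univ.image p) → ZMod 3 => ∀ π : ↥(S₀ ∪ univ.image p),
      ∑ ρ : ↥(S₀ ∪ univ.image p), cs π ρ * (v ρ - v π) = β π * v π)))
  exact (Equiv.subtypeEquiv (sh hp hd) fun q => key q).symm

end one

/-- **The count in a box.** -/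
theorem t_BOX (β : Ei → ZMod 3) (hEQ : S_EQ) (hLA : S_LA) (r : ℕ) :
    BoxG β (GB β r) (cr r) (3 ^ (r + 1)) := by
  intro ι _ _ C X κ S₀ hκ hCX hHB hS₀ hC hdis hcard
  have hcO : Fintype.card (Option S₀) = S₀.card + 1 := by
    rw [Fintype.card_option, Fintype.card_coe]
  obtain ⟨cc, hcc⟩ : ∃ cc : ℝ, cc = 3 ^ (r + 1) * (3 ^ (S₀.card + 1) / 3 ^ Fintype.card ι) :=
    ⟨_, rfl⟩
  obtain ⟨R, hR⟩ : ∃ R : ℝ, R = 3 ^ (prs ι).card * (κ * ∏ j, (X j : ℝ)) := ⟨_, rfl⟩
  have hcc0 : 0 ≤ cc := by rw [hcc]; positivity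
  have hR0 : 0 ≤ R := by
    rw [hR]
    exact mul_nonneg (by positivity)
      (mul_nonneg hκ (Finset.prod_nonneg fun j _ => by positivity))
  -- facts on tuples
  have hinj : ∀ p ∈ Fintype.piFinset C, Function.Injective p := by
    intro p hp i j hij
    rw [Fintype.mem_piFinset] at hp
    by_contra hne
    have h1 := Finset.disjoint_left.1 (hdis i j hne) (hp i)
    rw [hij] at h1
    exact h1 (hp j)
  have hd : ∀ p ∈ Fintype.piFinset C, ∀ i, p i ∉ S₀ := by
    intro p hp i
    rw [Fintype.mem_piFinset] at hp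
    exact (hC i _ (hp i)).2
  have hpr : ∀ p ∈ Fintype.piFinset C, ∀ i, Pq (p i) := by
    intro p hp i
    rw [Fintype.mem_piFinset] at hp
    exact (hC i _ (hp i)).1
  -- the part with given labels
  have h1 : ∀ b : ι → Option S₀ → ZMod 3, LN S₀ b →
      |(((Fintype.piFinset C).filter fun p => (fun i => lb β S₀ (p i)) = b ∧
          GB β r (S₀ ∪ univ.image p)).card : ℝ) -
        cr r * (((Fintype.piFinset C).filter fun p => (fun i => lb β S₀ (p i)) = b).card : ℝ)| ≤
      cc * (((Fintype.piFinset C).filter fun p => (fun i => lb β S₀ (p i)) = b).card : ℝ) + R := by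
    intro b hb
    obtain ⟨C', hC'⟩ : ∃ C' : ι → Finset Ei,
      C' = fun i => (C i).filter fun q => lb β S₀ q = b i := ⟨_, rfl⟩
    have hpi : (Fintype.piFinset C).filter (fun p => (fun i => lb β S₀ (p i)) = b) =
        Fintype.piFinset C' := by
      ext p
      simp only [Finset.mem_filter, Fintype.mem_piFinset, hC']
      constructor
      · rintro ⟨h2, h3⟩ i
        exact ⟨h2 i, congrFun h3 i⟩
      · intro h2
        exact ⟨fun i => (h2 i).1, funext fun i => (h2 i).2⟩
    have h2 := hLA r (Option S₀) ι (AA β S₀) (fun u l => b l u)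
      (by rw [hcO]; exact hcard)
      (fun u v => AA_symm hS₀ u v)
      (fun w hw => hb w hw)
    obtain ⟨Q, hQ⟩ : ∃ Q : (prs ι → ZMod 3) → Prop, Q = fun α =>
        nA (AA β S₀) (fun (u : Option S₀) l => b l u)
          (Pool.Agent.Y703.XK.ext α) = 3 ^ (r + 1) := ⟨_, rfl⟩
    have h3 := hEQ ι C' X κ hκ
      (fun i => (Finset.card_le_card (by rw [hC']; exact Finset.filter_subset _ _)).trans (hCX i))
      (by rw [hC']; exact HB_sub hHB fun i q => lb β S₀ q = b i) Q
    have h4 : ((Fintype.piFinset C).filter fun p => (fun i => lb β S₀ (p i)) = b ∧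
        GB β r (S₀ ∪ univ.image p)) = ((Fintype.piFinset C').filter fun p =>
          Q fun e => cs (p e.1.1) (p e.1.2)) := by
      rw [← hpi, Finset.filter_filter]
      refine Finset.filter_congr fun p hp => ?_
      refine and_congr_right fun hl => ?_
      unfold GB
      subst hl
      rw [hQ]
      show _ ↔ nA (AA β S₀) (fun (u : Option S₀) l => lb β S₀ (p l) u) _ = _
      rw [nB_eq (hinj p hp) (hpr p hp) hS₀ (hd p hp), pow_succ]
      constructor
      · intro h
        rw [h]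
      · intro h
        exact Nat.eq_of_mul_eq_mul_right (by norm_num) h
    have h5 : (((Fintype.piFinset C').card : ℕ) : ℝ) = ∏ j, ((C' j).card : ℝ) := by
      rw [Fintype.card_piFinset]
      push_cast
      rfl
    rw [h4, hpi, h5]
    rw [hcO, ← hcc] at h2
    rw [← hR] at h3
    obtain ⟨n, hn⟩ : ∃ n : ℝ, n = (((Fintype.piFinset C').filter fun p =>
          Q fun e => cs (p e.1.1) (p e.1.2)).card : ℝ) := ⟨_, rfl⟩
    obtain ⟨q, hq⟩ : ∃ q : ℝ, q = ((univ.filter Q).card : ℝ) / 3 ^ (prs ι).card := ⟨_, rfl⟩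
    obtain ⟨P, hP⟩ : ∃ P : ℝ, P = ∏ j, ((C' j).card : ℝ) := ⟨_, rfl⟩
    have hP0 : 0 ≤ P := by
      rw [hP]
      exact Finset.prod_nonneg fun j _ => by positivity
    have h2' : |q - cr r| ≤ cc := by
      have e : (univ.filter Q) = (univ.filter fun α : prs ι → ZMod 3 =>
          nA (AA β S₀) (fun (u : Option S₀) l => b l u)
            (Pool.Agent.Y703.XK.ext α) = 3 ^ (r + 1)) := by
        ext α
        rw [Finset.mem_filter, Finset.mem_filter, hQ]
      rw [hq, e]
      exact h2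
    rw [← hn, ← hq, ← hP] at h3
    rw [← hn, ← hP]
    have h6 : |n - cr r * P| ≤ |n - q * P| + |q - cr r| * P := by
      have h7 : n - cr r * P = (n - q * P) + (q - cr r) * P := by ring
      have h8 : |(q - cr r) * P| = |q - cr r| * P := by rw [abs_mul, abs_of_nonneg hP0]
      rw [h7, ← h8]
      exact abs_add_le _ _
    have h7 : |q - cr r| * P ≤ cc * P := mul_le_mul_of_nonneg_right h2' hP0
    linarith
  -- sum over the labels
  obtain ⟨LL, hLL⟩ : ∃ LL : Finset (ι → Option S₀ → ZMod 3),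
    LL = univ.filter (fun b => LN S₀ b) := ⟨_, rfl⟩
  have hfib : ∀ T : (ι → Ei) → Prop,
      (((Fintype.piFinset C).filter fun p => Nd β S₀ (univ.image p) ∧ T p).card : ℝ) =
      ∑ b ∈ LL, (((Fintype.piFinset C).filter fun p =>
        (fun i => lb β S₀ (p i)) = b ∧ T p).card : ℝ) := by
    intro T
    rw [Finset.card_eq_sum_card_fiberwise (f := fun (p : ι → Ei) (i : ι) => lb β S₀ (p i))
      (t := LL) (by
        intro p hp
        rw [Finset.mem_coe, Finset.mem_filter] at hp
        rw [Finset.mem_coe, hLL, Finset.mem_filter]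
        exact ⟨Finset.mem_univ _, nd_iff.1 hp.2.1⟩)]
    push_cast
    refine Finset.sum_congr rfl fun b hb => ?_
    rw [hLL, Finset.mem_filter] at hb
    congr 2
    ext p
    simp only [Finset.mem_filter]
    constructor
    · rintro ⟨⟨h3, h4, h4'⟩, h5⟩
      exact ⟨h3, h5, h4'⟩
    · rintro ⟨h3, h4, h5⟩
      refine ⟨⟨h3, ?_, h5⟩, h4⟩
      rw [nd_iff, h4]
      exact hb.2
  have hf1 := hfib fun p => GB β r (S₀ ∪ univ.image p)
  have hf2 := hfib fun _ => True
  simp only [and_true] at hf2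
  rw [← hcc, hf1, hf2, Finset.mul_sum, ← Finset.sum_sub_distrib]
  refine (Finset.abs_sum_le_sum_abs _ _).trans ?_
  refine (Finset.sum_le_sum fun b hb => h1 b (by
    rw [hLL] at hb
    exact (Finset.mem_filter.1 hb).2)).trans ?_
  rw [Finset.sum_add_distrib, ← Finset.mul_sum, Finset.sum_const, nsmul_eq_mul]
  have h5 : ((LL.card : ℕ) : ℝ) ≤ 3 ^ ((S₀.card + 1) * Fintype.card ι) := by
    have h6 : LL.card ≤ Fintype.card (ι → Option S₀ → ZMod 3) :=
      Finset.card_le_univ _
    rw [Fintype.card_fun, Fintype.card_fun, ZMod.card, hcO, ← pow_mul] at h6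
    exact_mod_cast h6
  have h6 := mul_le_mul_of_nonneg_right h5 hR0
  rw [pow_add, mul_assoc, ← hR]
  linarith

end Pool.Agent.Helper68.C3.Box3
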