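import Pool.Agent.Helper68.C3.NS3
import Pool.Agent.Helper68.C3.Stm

/-!
# The exact proportion
-/

set_option autoImplicit false
set_option linter.unusedVariables false

open scoped Classical

namespace Pool.Agent.Helper68.C3.Fin3

open NumberField IsDedekindDomain WeierstrassCurve WithZero
open Finset Filter
open Pool.Agent.Y692.QS (Ei w nr)
open Pool.Agent.Y715.T.Rec (cs)
open Pool.Agent.Y715.T.RecG (Pq)
open Pool.Agent.Y699.E (nrm eq_of_dvd)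
open Pool.Agent.Y703.CT
open Pool.Agent.Y703.XL (cr)
open Pool.Agent.Y696.CTK
open Pool.Agent.Helper68.C2 (pD2 KerW ClsW)
open Pool.Agent.Helper68.C3
open Pool.Agent.Helper68.C3.NS3

/-- the perturbation -/
def b2 (κ : ZMod 3) : Ei → ZMod 3 := bt (-κ) (-κ)

lemma b2_eq (κ : ZMod 3) (α : Ei) : b2 κ α = -(κ * rq α) := by
  unfold b2 bt rq
  push_cast
  ring

lemma b2_bt {κ : ZMod 3} (h : κ ≠ 0) : Bt (b2 κ) := bt_bt (Or.inl (neg_ne_zero.2 h))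

lemma dt_of {S : Finset Ei} (hS : ∀ π ∈ S, Pq π) :
    Dt (fun p : S => (p : Ei)) (fun _ => (1 : ZMod 3)) where
  pq p := hS p p.2
  nd := by
    intro i k hik hd
    exact hik (Subtype.ext (eq_of_dvd (hS k k.2) (hS i i.2) hd).symm)
  e0 _ := by decide

lemma pD2_of (S : Finset Ei) (κ : ZMod 3) :
    pD2 (fun p : S => (p : Ei)) (fun _ => (1 : ZMod 3)) κ = w ^ κ.val * ∏ π ∈ S, π := by
  unfold pD2 pD
  rw [← Finset.prod_coe_sort S (fun π => π)]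
  congr 1
  refine Finset.prod_congr rfl fun p _ => ?_
  have : (1 : ZMod 3).val = 1 := rfl
  rw [this, pow_one]

lemma ker_gb (S : Finset Ei) (κ : ZMod 3) :
    KerW (fun p : S => (p : Ei)) (fun _ => (1 : ZMod 3)) κ ↔ GB (b2 κ) 0 S := by
  have e1 : ∀ v : S → ZMod 3,
      (∀ π : S, ∑ ρ : S, (1 : ZMod 3) * cs π ρ * (v ρ - v π) = -(κ * rq π) * v π) ↔
      (∀ π : S, ∑ ρ : S, cs π ρ * (v ρ - v π) = b2 κ π * v π) := by
    intro v
    simp only [one_mul, b2_eq]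
  unfold KerW GB nB
  simp only [e1]
  rw [pow_zero]
  constructor
  · intro h
    rw [Nat.card_eq_one_iff_unique]
    refine ⟨⟨fun a b => Subtype.ext (funext fun π => ?_)⟩, ⟨⟨fun _ => 0, fun π => ?_⟩⟩⟩
    · rw [h a.1 a.2 π, h b.1 b.2 π]
    · simp
  · intro h v hv
    rw [Nat.card_eq_one_iff_unique] at h
    obtain ⟨h1, -⟩ := h
    have h2 := h1.elim ⟨v, hv⟩ ⟨fun _ => 0, fun π => by simp⟩
    intro π
    exact congrFun (congrArg Subtype.val h2) π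

section
variable {K : Type} [Field K] [NumberField K] (j : Ei ≃+* 𝓞 K)

lemma tri_gb {κ : ZMod 3} (hκ : κ ≠ 0) {S : Finset Ei} (hS : ∀ π ∈ S, Pq π) :
    Tri (j (w ^ κ.val * ∏ π ∈ S, π)) ↔ GB (b2 κ) 0 S := by
  rw [← pD2_of, Pool.Agent.Helper68.C2.Asm2.tri_iff j (dt_of hS) hκ, ker_gb]

lemma cls_iff (D : Ei) :
    ClsQ (j D) ↔ ∃ κ : ZMod 3, κ ≠ 0 ∧ ((3 : Ei) ∣ D - w ^ κ.val ∧ Squarefree D) := by
  have e2 : Squarefree (j D) ↔ Squarefree D := by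
    constructor
    · intro h x hx
      have h1 := h (j x) (by rw [← map_mul]; exact map_dvd j hx)
      exact (MulEquiv.isUnit_map j).1 h1
    · intro h x hx
      obtain ⟨y, rfl⟩ := j.surjective x
      rw [← map_mul, map_dvd_iff j] at hx
      exact (h y hx).map j
  unfold ClsQ
  rw [e2]
  constructor
  · rintro ⟨⟨ω, h1, h2⟩, h3⟩
    obtain ⟨κ, hκ, rfl⟩ := Pool.Agent.Helper68.C2.Fact2.root_pow j h1
    refine ⟨κ, hκ, ?_, h3⟩
    rw [← map_sub, ← map_ofNat j 3, map_dvd_iff j] at h2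
    exact h2
  · rintro ⟨κ, hκ, h1, h2⟩
    refine ⟨⟨j (w ^ κ.val), ?_, ?_⟩, h2⟩
    · have hww : ((w : Ei) ^ κ.val) ^ 2 + w ^ κ.val + 1 = 0 := by
        clear h1
        revert κ
        decide
      rw [← map_pow, ← map_one j, ← map_add, ← map_add, hww, map_zero]
    · rw [← map_sub, ← map_ofNat j 3, map_dvd_iff j]
      exact h1

lemma fin_nr (X : ℕ) : {D : Ei | nr D ≤ X}.Finite := by
  refine Set.Finite.subset (((Set.finite_Icc (-(2 * X : ℤ)) (2 * X)).prod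
    (Set.finite_Icc (-(2 * X : ℤ)) (2 * X))).image fun p : ℤ × ℤ => (⟨p.1, p.2⟩ : Ei)) ?_
  intro D hD
  have hD' : D.re ^ 2 - D.re * D.im + D.im ^ 2 ≤ X := hD
  have hX : (0 : ℤ) ≤ X := Int.natCast_nonneg X
  have h1 : D.re ^ 2 ≤ 2 * X := by nlinarith [sq_nonneg (D.re - 2 * D.im)]
  have h2 : D.im ^ 2 ≤ 2 * X := by nlinarith [sq_nonneg (2 * D.re - D.im)]
  have h3 : |D.re| ≤ 2 * X :=
    ((Int.natCast_natAbs D.re).symm.le.trans (Int.natAbs_le_self_sq _)).trans h1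
  have h4 : |D.im| ≤ 2 * X :=
    ((Int.natCast_natAbs D.im).symm.le.trans (Int.natAbs_le_self_sq _)).trans h2
  exact ⟨(D.re, D.im), ⟨abs_le.1 h3, abs_le.1 h4⟩, rfl⟩

/-- the count in the class is the sum over the two residues -/
lemma count (hj : ∀ z : Ei, Algebra.norm ℤ (j z) = nr z) (X : ℕ) (Q : 𝓞 K → Prop) :
    {D : 𝓞 K | Algebra.norm ℤ D ≤ X ∧ ClsQ D ∧ Q D}.ncard =
      ((SS X).filter fun S => Q (j (w ^ (1 : ZMod 3).val * ∏ π ∈ S, π))).card +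
      ((SS X).filter fun S => Q (j (w ^ (2 : ZMod 3).val * ∏ π ∈ S, π))).card := by
  have h1 : {D : 𝓞 K | Algebra.norm ℤ D ≤ X ∧ ClsQ D ∧ Q D} =
      j '' ({D : Ei | nr D ≤ X ∧ ((3 : Ei) ∣ D - w ^ (1 : ZMod 3).val ∧ Squarefree D) ∧ Q (j D)} ∪
        {D : Ei | nr D ≤ X ∧ ((3 : Ei) ∣ D - w ^ (2 : ZMod 3).val ∧ Squarefree D) ∧ Q (j D)}) := by
    ext D
    obtain ⟨z, rfl⟩ := j.surjective D
    have e : j z ∈ (j '' ({D : Ei | nr D ≤ X ∧ ((3 : Ei) ∣ D - w ^ (1 : ZMod 3).val ∧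
        Squarefree D) ∧ Q (j D)} ∪
        {D : Ei | nr D ≤ X ∧ ((3 : Ei) ∣ D - w ^ (2 : ZMod 3).val ∧ Squarefree D) ∧ Q (j D)})) ↔
        z ∈ ({D : Ei | nr D ≤ X ∧ ((3 : Ei) ∣ D - w ^ (1 : ZMod 3).val ∧
        Squarefree D) ∧ Q (j D)} ∪
        {D : Ei | nr D ≤ X ∧ ((3 : Ei) ∣ D - w ^ (2 : ZMod 3).val ∧ Squarefree D) ∧ Q (j D)}) :=
      j.injective.mem_set_image
    rw [e]
    show Algebra.norm ℤ (j z) ≤ X ∧ ClsQ (j z) ∧ Q (j z) ↔ _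
    rw [hj, cls_iff]
    constructor
    · rintro ⟨a1, ⟨κ, hκ, a2⟩, a3⟩
      have key : κ = 1 ∨ κ = 2 := by
        clear a2
        revert κ
        decide
      rcases key with rfl | rfl
      · exact Or.inl ⟨a1, a2, a3⟩
      · exact Or.inr ⟨a1, a2, a3⟩
    · rintro (⟨a1, a2, a3⟩ | ⟨a1, a2, a3⟩)
      · exact ⟨a1, ⟨1, by decide, a2⟩, a3⟩
      · exact ⟨a1, ⟨2, by decide, a2⟩, a3⟩
  rw [h1, Set.ncard_image_of_injective _ j.injective, Set.ncard_union_eq ?_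
    ((fin_nr X).subset fun D h => h.1) ((fin_nr X).subset fun D h => h.1), card_eq X 1
    (fun D => Q (j D)), card_eq X 2 (fun D => Q (j D))]
  · rw [Set.disjoint_left]
    rintro D ⟨-, ⟨a1, -⟩, -⟩ ⟨-, ⟨a2, -⟩, -⟩
    have a3 := dvd_sub a2 a1
    have e : D - w ^ (2 : ZMod 3).val - (D - w ^ (1 : ZMod 3).val) =
        w ^ (1 : ZMod 3).val - w ^ (2 : ZMod 3).val := by ring
    rw [e] at a3
    obtain ⟨c, hc⟩ := a3
    have h5 := congrArg QuadraticAlgebra.im hc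
    have e3 : ((3 : Ei) * c).im = 3 * c.im := by
      have e2 : (3 : Ei).re = 3 := rfl
      have e3 : (3 : Ei).im = 0 := rfl
      rw [Pool.Agent.Y692.QS.mul_im, e2, e3]
      ring
    have e4 : (w ^ (1 : ZMod 3).val - w ^ (2 : ZMod 3).val : Ei).im = 2 := by decide
    rw [e3, e4] at h5
    omega

lemma part3_iff {D : 𝓞 K} (h : Law3 D) : Part3 D ↔ Tri D := by
  constructor
  · exact fun h => h.1
  · intro ht
    obtain ⟨-, -, Lf, c, h1, h2, h3, h4, h5⟩ := h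
    refine ⟨ht, Lf, c, h1, h2, h3 ht, h4, fun σ => ⟨(h5 σ).1, fun Λ g2 g3 => ?_⟩⟩
    obtain ⟨ρ, h6, h7⟩ := (h5 σ).2 Λ g2 g3
    exact ⟨ρ, h6, fun Γ _ v hv => (h7 Γ v hv).2.2 ht⟩

end

lemma cr_zero : cr 0 = ∏' i : ℕ, (1 - (1 / 3 : ℝ) ^ (2 * i + 1)) := by
  unfold cr Pool.Agent.Y703.XK.c9
  rw [Finset.range_zero, Finset.prod_empty, div_one]

lemma law_cls (K : Type) [Field K] [NumberField K] [IsCyclotomicExtension {3} ℚ K] {D : 𝓞 K}
    (hD : ClsQ D) : Law3 D := by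
  refine ((Pool.Agent.Helper68.C2.Fact2.final1 K).2 D ⟨hD.1, fun x hx => hD.2 x ?_⟩).1
  exact dvd_trans ⟨x, by ring⟩ hx

/-- **The final statement.** -/
theorem final2 (K : Type) [Field K] [NumberField K] [IsCyclotomicExtension {3} ℚ K] :
    (∃ c : ℝ, 0 < c ∧ ∃ X₀ : ℕ, ∀ X : ℕ, X₀ ≤ X →
      c * X ≤ ({D : 𝓞 K | Algebra.norm ℤ D ≤ X ∧ ClsQ D}.ncard : ℝ)) ∧
    Filter.Tendsto (fun X : ℕ =>
      ({D : 𝓞 K | Algebra.norm ℤ D ≤ X ∧ ClsQ D ∧ Part3 D}.ncard : ℝ) /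
        ({D : 𝓞 K | Algebra.norm ℤ D ≤ X ∧ ClsQ D}.ncard : ℝ)) Filter.atTop
      (nhds (∏' i : ℕ, (1 - (1 / 3 : ℝ) ^ (2 * i + 1)))) ∧
    (0.639 : ℝ) < ∏' i : ℕ, (1 - (1 / 3 : ℝ) ^ (2 * i + 1)) ∧
    ∏' i : ℕ, (1 - (1 / 3 : ℝ) ^ (2 * i + 1)) < 0.6391 := by
  obtain ⟨⟨j, hj⟩, -⟩ := Pool.Agent.Y455.CTK.jex K
  have hc9 := Pool.Agent.Y703.XL.t_C9
  have e2 : ∀ X : ℕ, {D : 𝓞 K | Algebra.norm ℤ D ≤ X ∧ ClsQ D}.ncard =
      2 * (SS X).card := by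
    intro X
    have h := count j hj X (fun _ => True)
    rw [Finset.filter_true] at h
    have e : {D : 𝓞 K | Algebra.norm ℤ D ≤ X ∧ ClsQ D} =
        {D : 𝓞 K | Algebra.norm ℤ D ≤ X ∧ ClsQ D ∧ True} := by
      ext D
      simp only [Set.mem_ofPred_eq, and_true]
    rw [e, h]
    ring
  have e1 : ∀ X : ℕ, {D : 𝓞 K | Algebra.norm ℤ D ≤ X ∧ ClsQ D ∧ Part3 D}.ncard =
      ((SS X).filter (GB (b2 1) 0)).card + ((SS X).filter (GB (b2 2) 0)).card := by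
    intro X
    have e : {D : 𝓞 K | Algebra.norm ℤ D ≤ X ∧ ClsQ D ∧ Part3 D} =
        {D : 𝓞 K | Algebra.norm ℤ D ≤ X ∧ ClsQ D ∧ Tri D} := by
      ext D
      show _ ∧ _ ∧ _ ↔ _ ∧ _ ∧ _
      refine and_congr_right fun _ => and_congr_right fun hD => part3_iff (law_cls K hD)
    have hS : ∀ S ∈ SS X, ∀ π ∈ S, Pq π := by
      intro S hS
      unfold SS at hS
      exact (Finset.mem_filter.1 hS).2.1
    rw [e, count j hj X Tri]
    congr 1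
    · exact congrArg Finset.card (Finset.filter_congr fun S h =>
        tri_gb j (κ := 1) (by decide) (hS S h))
    · exact congrArg Finset.card (Finset.filter_congr fun S h =>
        tri_gb j (κ := 2) (by decide) (hS S h))
  refine ⟨?_, ?_, hc9.2.2.2.1, hc9.2.2.2.2⟩
  · obtain ⟨c, X₀, hc, h⟩ := Asy3.t_LOW
    refine ⟨c, hc, X₀, fun X hX => (h X hX).trans ?_⟩
    rw [e2]
    push_cast
    have : (0 : ℝ) ≤ ((SS X).card : ℝ) := Nat.cast_nonneg _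
    linarith
  · have h1 := Asy3.t_DQ_all (b2_bt (κ := 1) (by decide)) 0
    have h2 := Asy3.t_DQ_all (b2_bt (κ := 2) (by decide)) 0
    have h3 := (h1.add h2).div_const 2
    rw [cr_zero] at h3
    have e3 : ((∏' i : ℕ, (1 - (1 / 3 : ℝ) ^ (2 * i + 1))) +
        ∏' i : ℕ, (1 - (1 / 3 : ℝ) ^ (2 * i + 1))) / 2 =
        ∏' i : ℕ, (1 - (1 / 3 : ℝ) ^ (2 * i + 1)) := by ring
    rw [e3] at h3
    refine h3.congr fun X => ?_
    rw [e1, e2]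
    push_cast
    rcases eq_or_ne ((SS X).card : ℝ) 0 with h | h
    · rw [h]
      simp
    · field_simp

end Pool.Agent.Helper68.C3.Fin3
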