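import Pool.Agent.Helper68.C3.Asy3
import Pool.Agent.Helper68.C2.Fact2

/-!
# Characters modulo nine, translation between elements and sets of primes
-/

set_option autoImplicit false

open scoped Classical

namespace Pool.Agent.Helper68.C3.NS3

open Finset Filter
open Pool.Agent.Y692.QS (Ei w nr mul_re mul_im nr_mul)
open Pool.Agent.Y715.T.Rec (cs)
open Pool.Agent.Y715.T.RecG (Pq)
open Pool.Agent.Y699.E (nrm nrm_cast nrm_mul nrm_one QB mem_QB PD mem_PD PS PS_prod fin_pd
  norm_le_of_dvd prm prm_mul)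
open Pool.Agent.Y703.XL (cr)
open Pool.Agent.Helper68.C3

/-- the character with `1 + 3 (x + y ω) ↦ p x + q y` -/
def bt (p q : ZMod 3) (α : Ei) : ZMod 3 :=
  p * (((α.re - 1) / 3 : ℤ) : ZMod 3) + q * ((α.im / 3 : ℤ) : ZMod 3)

lemma prm_co {a : Ei} (h : prm a) : ∃ x y : ℤ, a.re = 1 + 3 * x ∧ a.im = 3 * y := by
  obtain ⟨k, hk⟩ := h
  have h1 : a = 1 + 3 * k := by rw [← hk]; ring
  refine ⟨k.re, k.im, ?_, ?_⟩
  · have e1 : ((1 : Ei) + 3 * k).re = 1 + 3 * k.re := by
      have e2 : (3 : Ei).re = 3 := rfl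
      have e3 : (3 : Ei).im = 0 := rfl
      rw [QuadraticAlgebra.re_add, mul_re, e2, e3]
      show (1 : ℤ) + _ = _
      ring
    rw [h1, e1]
  · have e4 : ((1 : Ei) + 3 * k).im = 3 * k.im := by
      have e2 : (3 : Ei).re = 3 := rfl
      have e3 : (3 : Ei).im = 0 := rfl
      rw [QuadraticAlgebra.im_add, mul_im, e2, e3]
      show (0 : ℤ) + _ = _
      ring
    rw [h1, e4]

lemma bt_co {p q : ZMod 3} {a : Ei} {x y : ℤ} (h1 : a.re = 1 + 3 * x) (h2 : a.im = 3 * y) :
    bt p q a = p * (x : ZMod 3) + q * (y : ZMod 3) := by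
  unfold bt
  have e1 : (a.re - 1) / 3 = x := by omega
  have e2 : a.im / 3 = y := by omega
  rw [e1, e2]

lemma bt_bt {p q : ZMod 3} (h : p ≠ 0 ∨ q ≠ 0) : Bt (bt p q) := by
  have h3 : (3 : ZMod 3) = 0 := by decide
  refine ⟨?_, ?_, ?_⟩
  · intro a b ha hb
    obtain ⟨x, y, a1, a2⟩ := prm_co ha
    obtain ⟨x', y', b1, b2⟩ := prm_co hb
    have c1 : (a * b).re = 1 + 3 * (x + x' + 3 * (x * x' - y * y')) := by
      rw [mul_re, a1, a2, b1, b2]
      ring
    have c2 : (a * b).im = 3 * (y + y' + 3 * (x * y' + y * x' - y * y')) := by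
      rw [mul_im, a1, a2, b1, b2]
      ring
    rw [bt_co c1 c2, bt_co a1 a2, bt_co b1 b2]
    push_cast
    rw [h3]
    ring
  · intro a b ha hb hab
    obtain ⟨x, y, a1, a2⟩ := prm_co ha
    obtain ⟨x', y', b1, b2⟩ := prm_co hb
    obtain ⟨k, hk⟩ := hab
    have e9 : (9 : Ei).re = 9 := rfl
    have e0 : (9 : Ei).im = 0 := rfl
    have d1 := congrArg QuadraticAlgebra.re hk
    have d2 := congrArg QuadraticAlgebra.im hk
    rw [QuadraticAlgebra.re_sub, mul_re, e9, e0, a1, b1] at d1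
    rw [QuadraticAlgebra.im_sub, mul_im, e9, e0, a2, b2] at d2
    have f1 : x = x' + 3 * k.re := by linarith
    have f2 : y = y' + 3 * k.im := by linarith
    rw [bt_co a1 a2, bt_co b1 b2, f1, f2]
    push_cast
    rw [h3]
    ring
  · rcases h with h | h
    · refine ⟨4, ⟨1, by norm_num⟩, ?_⟩
      rw [bt_co (x := 1) (y := 0) rfl rfl]
      simpa using h
    · refine ⟨1 + 3 * w, ⟨w, by ring⟩, ?_⟩
      rw [bt_co (x := 0) (y := 1) (by decide) (by decide)]
      simpa using h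

lemma nrm_prod (S : Finset Ei) : nrm (∏ π ∈ S, π) = ∏ π ∈ S, nrm π := by
  induction S using Finset.induction_on with
  | empty => rw [Finset.prod_empty, Finset.prod_empty, nrm_one]
  | insert a S ha ih => rw [Finset.prod_insert ha, Finset.prod_insert ha, nrm_mul, ih]

lemma w_cube : (w : Ei) ^ 3 = 1 := by decide

lemma wk_nr (κ : ZMod 3) : nr (w ^ κ.val) = 1 := by
  revert κ
  decide

lemma wk_inv (κ : ZMod 3) : w ^ (-κ).val * w ^ κ.val = (1 : Ei) := by
  revert κ
  decide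

lemma wk_unit (κ : ZMod 3) : IsUnit (w ^ κ.val : Ei) :=
  IsUnit.of_mul_eq_one _ ((mul_comm _ _).trans (wk_inv κ))

theorem card_eq (X : ℕ) (κ : ZMod 3) (Q : Ei → Prop) :
    {D : Ei | nr D ≤ X ∧ ((3 : Ei) ∣ D - w ^ κ.val ∧ Squarefree D) ∧ Q D}.ncard =
      ((SS X).filter fun S => Q (w ^ κ.val * ∏ π ∈ S, π)).card := by
  have h1 : {D : Ei | nr D ≤ X ∧ ((3 : Ei) ∣ D - w ^ κ.val ∧ Squarefree D) ∧ Q D} =
      (fun S : Finset Ei => w ^ κ.val * ∏ π ∈ S, π) ''
        (((SS X).filter fun S => Q (w ^ κ.val * ∏ π ∈ S, π) : Finset (Finset Ei)) :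
          Set (Finset Ei)) := by
    ext D
    constructor
    · rintro ⟨h1, ⟨h2, h3⟩, h4⟩
      set D' : Ei := w ^ (-κ).val * D with hD'
      have e1 : w ^ κ.val * D' = D := by
        rw [hD', ← mul_assoc, mul_comm (w ^ κ.val) (w ^ (-κ).val), wk_inv, one_mul]
      have hu := wk_unit κ
      have hD : PS D' := by
        refine ⟨?_, ?_⟩
        · obtain ⟨k, hk⟩ := h2
          refine ⟨w ^ (-κ).val * k, ?_⟩
          rw [hD']
          have : w ^ (-κ).val * (D - w ^ κ.val) = w ^ (-κ).val * D - 1 := by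
            rw [mul_sub, wk_inv]
          rw [← this, hk]
          ring
        · refine h3.squarefree_of_dvd ?_
          rw [← e1]
          exact dvd_mul_left _ _
      have h5 : nrm D' ≤ X := by
        have h6 : nr D' = nr D := by
          have h8 := nr_mul (w ^ κ.val) D'
          rw [e1, wk_nr, one_mul] at h8
          exact h8.symm
        have h7 : (nrm D' : ℤ) ≤ X := by rw [nrm_cast, h6]; exact h1
        exact_mod_cast h7
      refine ⟨PD D', ?_, ?_⟩
      · rw [Finset.mem_coe, Finset.mem_filter, hD.prod, e1]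
        refine ⟨?_, h4⟩
        unfold SS
        rw [Finset.mem_filter, Finset.mem_powerset]
        refine ⟨fun π hπ => ?_, fun π hπ => ((mem_PD hD.ne).1 hπ).1, ?_⟩
        · obtain ⟨h5', h6⟩ := (mem_PD hD.ne).1 hπ
          exact mem_QB.2 ⟨(norm_le_of_dvd hD.ne h6).trans h5, h5'⟩
        · rw [← nrm_prod, hD.prod]
          exact h5
      · show w ^ κ.val * ∏ π ∈ PD D', π = D
        rw [hD.prod, e1]
    · rintro ⟨S, hS, rfl⟩
      rw [Finset.mem_coe, Finset.mem_filter] at hS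
      obtain ⟨h1, h2⟩ := hS
      unfold SS at h1
      rw [Finset.mem_filter] at h1
      obtain ⟨-, h3, h4⟩ := h1
      obtain ⟨h5, h6⟩ := PS_prod h3
      refine ⟨?_, ⟨?_, ?_⟩, h2⟩
      · show nr (w ^ κ.val * ∏ π ∈ S, π) ≤ X
        rw [nr_mul, wk_nr, one_mul, ← nrm_cast, nrm_prod]
        exact_mod_cast h4
      · show (3 : Ei) ∣ w ^ κ.val * ∏ π ∈ S, π - w ^ κ.val
        have e : w ^ κ.val * ∏ π ∈ S, π - w ^ κ.val = w ^ κ.val * (∏ π ∈ S, π - 1) := by ring
        rw [e]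
        exact h5.prm.mul_left _
      · show Squarefree (w ^ κ.val * ∏ π ∈ S, π)
        intro x hx
        exact h5.sqf x ((wk_unit κ).dvd_mul_left.1 hx)
  rw [h1, Set.InjOn.ncard_image, Set.ncard_coe_finset]
  intro S hS S' hS' h
  rw [Finset.mem_coe, Finset.mem_filter] at hS hS'
  have e1 : ∀ π ∈ S, Pq π := by
    have := hS.1
    unfold SS at this
    exact (Finset.mem_filter.1 this).2.1
  have e2 : ∀ π ∈ S', Pq π := by
    have := hS'.1
    unfold SS at this
    exact (Finset.mem_filter.1 this).2.1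
  rw [← (PS_prod e1).2, ← (PS_prod e2).2]
  exact congrArg PD ((wk_unit κ).mul_left_cancel h)

end Pool.Agent.Helper68.C3.NS3
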